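import Pool.Agent.MP_e061a3_an.Main

/-! Macintyre's conjecture for entire functions of finite lower hyper-order: a nonzero gap series
with `∑ 1/p_n < ∞` such that `M(r) ≤ exp (exp (r^C))` for some `C` and arbitrarily large `r` is
unbounded on every curve going to infinity. -/

set_option autoImplicit false

namespace Pool.Agent.Results.MP_e061a3_an.HyperOrder

open Filter

theorem result :
    ∀ p : ℕ → ℕ, StrictMono p → (∀ n, 0 < p n) →
      Summable (fun n => 1 / (p n : ℝ)) →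
      ∀ a : ℕ → ℂ, (∀ z : ℂ, Summable (fun n => a n * z ^ (p n))) →
        (∃ n, a n ≠ 0) →
        (∃ C : ℕ, ∀ R : ℝ, ∃ r : ℝ, R ≤ r ∧ ∀ z : ℂ, ‖z‖ = r →
          ‖∑' n, a n * z ^ (p n)‖ ≤ Real.exp (Real.exp (r ^ C))) →
        ∀ γ : ℝ → ℂ, ContinuousOn γ (Set.Ici 0) →
          Tendsto (fun t => ‖γ t‖) atTop atTop →
          ¬ ∃ M : ℝ, ∀ t : ℝ, 0 ≤ t → ‖∑' n, a n * (γ t) ^ (p n)‖ ≤ M := by
  intro p hp hpos hsum a hs hne hhyp γ hγ hinf
  exact Pool.Agent.MP_e061a3_an.unbounded_of_hyper p hp hpos hsum a hs hne hhyp γ hγ hinf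

end Pool.Agent.Results.MP_e061a3_an.HyperOrder
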