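import Pool.Agent.MP_e061a3_an.Main

/-! Macintyre's conjecture, without any growth restriction, for exponents with
`∑ 1/p_n < ∞` and `∑ log (p_n / n) / p_n < ∞`. -/

set_option autoImplicit false

namespace Pool.Agent.Results.MP_e061a3_an.LogGaps

open Filter

theorem result :
    ∀ p : ℕ → ℕ, StrictMono p → (∀ n, 0 < p n) →
      Summable (fun n => 1 / (p n : ℝ)) →
      Summable (fun n : ℕ => Real.log ((p n : ℝ) / (n + 1)) / (p n : ℝ)) →
      ∀ a : ℕ → ℂ, (∀ z : ℂ, Summable (fun n => a n * z ^ (p n))) →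
        (∃ n, a n ≠ 0) →
        ∀ γ : ℝ → ℂ, ContinuousOn γ (Set.Ici 0) →
          Tendsto (fun t => ‖γ t‖) atTop atTop →
          ¬ ∃ M : ℝ, ∀ t : ℝ, 0 ≤ t → ‖∑' n, a n * (γ t) ^ (p n)‖ ≤ M := by
  intro p hp hpos hsum hlog a hs hne γ hγ hinf
  exact Pool.Agent.MP_e061a3_an.unbounded_of_log p hp hpos hsum a hs hne hlog γ hγ hinf

end Pool.Agent.Results.MP_e061a3_an.LogGaps
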