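import Pool.Agent.GapReg.Final

/-! Macintyre's conjecture, without any growth restriction and for arbitrary curves, for regular
Fejer gaps: `p_n ≥ (n+1) L_n` with `L` nondecreasing and `∑ 1/((n+1) L_n) < ∞`. -/

set_option autoImplicit false

namespace Pool.Agent.Results.MP_e061a3_an.RegularGaps

open Filter

theorem result :
    ∀ p : ℕ → ℕ, StrictMono p → (∀ n, 0 < p n) →
      (∃ L : ℕ → ℝ, Monotone L ∧ (∀ n, 0 < L n) ∧
        Summable (fun n : ℕ => 1 / (((n : ℝ) + 1) * L n)) ∧ ∀ n : ℕ, ((n : ℝ) + 1) * L n ≤ p n) →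
      ∀ a : ℕ → ℂ, (∀ z : ℂ, Summable (fun n => a n * z ^ (p n))) →
        (∃ n, a n ≠ 0) →
        ∀ γ : ℝ → ℂ, ContinuousOn γ (Set.Ici 0) →
          Tendsto (fun t => ‖γ t‖) atTop atTop →
          ¬ ∃ M : ℝ, ∀ t : ℝ, 0 ≤ t → ‖∑' n, a n * (γ t) ^ (p n)‖ ≤ M := by
  rintro p hp hpos ⟨L, hL, hL0, hsum, hpL⟩ a hs hne γ hγ hinf
  exact Pool.Agent.GapReg.unbounded_regular p hp hpos L hL hL0 hsum hpL a hs hne γ hγ hinf

end Pool.Agent.Results.MP_e061a3_an.RegularGaps
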